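import Pool.Agent.T9h88.SC.Scales

/-!
# A language that is complete for `NP ∩ coNP` at almost all scales

The classes `NP`, `coNP` and polynomial time `IsPolyTime` are the ones of the frozen statements
(`Pool.Prelude.Def_H_3587d628`).

For every computable function `g` (however fast it grows) and every `c ≥ 1` there are a language
`K` in `NP` and a language `M` in `coNP` such that every language of `NP ∩ coNP` is reduced by one
polynomial-time function to both of them, and numbers `s i ≥ g i` such that `K` and `M` are the same
on all inputs whose length lies outside the intervals `[s i, 2 ^ (s i ^ (1 / (c + i)))]`,
`i = 0, 1, 2, …`.  If `K = M` everywhere then `K` is complete for `NP ∩ coNP`.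

So `K` is hard for `NP ∩ coNP` at all lengths, and in `NP ∩ coNP` on all lengths outside extremely
few intervals, each of subexponential ratio: below `N` there are at most as many of them as there are
`i` with `g i ≤ N`, where `g` may be for instance Ackermann's function, while there are about
`log* N` disjoint intervals `[n, 2 ^ n]` below `N`: `K` is complete at almost all scales. For every
computable function `h` and every computable sequence of intervals `[n_j, h n_j]` with
`h n_j < log₂ n_{j+1}`, for a suitable `g` all but at most `i` of the first `g' i` intervals are free of
exceptional lengths, where `g'` is an arbitrary computable function; in particular the result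
`CompleteOnLongIntervals` of helper49 (infinitely many such intervals) follows.  There is no unproved
hypothesis.

Proof.  Let the pairs number `e = 0, 1, 2, ...` consist of two nondeterministic machines with the same
polynomial clock; a pair is good if on every input exactly one of the machines accepts.  An instance
asks whether the first machine of the pair `e` accepts `x`; it is padded to the length
`T ^ (c + e)`, where `T` is larger than the running time, and the answer of `K` (of the complement of
`M`) is that of the first (second) machine, if the pair `e` is active at the length of the instance.
The pair `e` becomes active when a clock shows that `g e` is at most the length, and it becomes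
inactive for ever when an exhaustive search, which is feasible in polynomial time for logarithmic
lengths, finds a failure.  Good pairs are active at all large lengths.  Let `s e` be the first length at
which the pair `e` fails on a valid instance.  Then `K` and `M` can differ on an instance for the pair
`e` only at lengths `n ≥ s e` at which the failure at `s e` has not been found, hence `n < 2 ^ T` with
`T ^ (c + e) ≤ s e`.

The library `Pool.Agent.T9h49.SC` (polynomial time, clocked verifiers, clocks for computable
functions) is due to helper49, and so is the idea of an infinitely often complete language.
-/

set_option autoImplicit false

namespace Pool.Agent.Results.MP_c2284b_lc.CompleteAtAlmostAllScales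

open N68a2faeb N793a5b8e

theorem result (g : ℕ → ℕ) (hg : Computable g) (c : ℕ) (hc : 1 ≤ c) :
    ∃ K M : DecisionProblem, K ∈ NP ∧ M ∈ coNP ∧
      (∀ L ∈ NP ∩ coNP, ∃ f : List Bool → List Bool, IsPolyTime f ∧
        ∀ x, L x = K (f x) ∧ L x = M (f x)) ∧
      ∃ s : ℕ → ℕ, (∀ i, g i ≤ s i) ∧ ∀ z : List Bool, K z ≠ M z →
        ∃ i, s i ≤ z.length ∧ (z.length : ℝ) ≤ 2 ^ ((s i : ℝ) ^ ((1 : ℝ) / (c + i))) :=
  Pool.Agent.T9h88.SC.main g hg c hc

end Pool.Agent.Results.MP_c2284b_lc.CompleteAtAlmostAllScales
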