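import Pool.Agent.T9h21.UB.High

/-!
# Languages that are hard for `NP ∩ coNP`: collectively low, and in general not high

`DecisionProblem`, `NP`, `coNP`, `IsPolyTime`, `ManyOneReducible` and `IsCompleteFor` are the
notions of the frozen statements. `Hard K` says that every language in `NP ∩ coNP` is many-one
reducible to `K`; `SigmaRel m K` is the level `m` of the polynomial hierarchy relative to `K`
(`SigmaRel 1 K` is `NP` relative to `K`), and `SigmaP m` is the level `m` of the polynomial hierarchy.
A language `K ∈ NP` is low at the level `m` if `SigmaRel m K = SigmaP m`, and high at the level `m` if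
`SigmaRel m K = SigmaP (m + 1)` (Schöning).  The low languages of level `1` are exactly the languages
in `NP ∩ coNP`; so a language in `NP` which is complete for `NP ∩ coNP` is low at all levels, but
nobody knows whether one exists. The theorem says that the hard languages in `NP` are collectively
low, and that in general they are not high, with no unproved hypothesis:

1. cone avoidance at all levels: below every hard language `K` that is in `NP` or computable, for
   every computable family of languages `A m j ∉ SigmaP (m + 1)`, there are hard languages `K' s`
   such that no `A m j` is in `SigmaRel (m + 1) (K' s)`, and `K` is many-one reducible to the join of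
   any two of them;
2. for every `m` and every hard `K₀ ∈ NP` the class `SigmaP (m + 1)` is the intersection of the
   classes `SigmaRel (m + 1) K` over the hard languages `K` many-one below `K₀`;
3. `SigmaP (m + 1) ≠ SigmaP (m + 2)` iff some hard `K ∈ NP` is not high at the level `m + 1`;
4. the polynomial hierarchy is infinite iff some hard `K ∈ NP` is not high at any level;
5. if the polynomial hierarchy is infinite, then there are infinitely many hard languages in `NP`
   outside of the high hierarchy such that the join of any two of them is complete for `NP`.

Proof.  The construction of `SplittingUpperBounds` (padded instances with a pair of machines and a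
reduction, deactivation of bad indices after an exhaustive search, and stages in which one of the
languages `K' s` contains no copy of `K`), with the requirements `A m j ≠` the language which is
reduced by the polynomial-time function number `r` to the jump of order `m + 1` of `K' s`.  Here the
jump of `B` is the canonical complete language for `NP` relative to `B`.  While a stage lasts, `K' s`
is in `NP ∩ coNP`, so a stage which does not end would give `A m j ∈ SigmaP (m + 1)`.  The levels are
not bounded; the iterated jumps are evaluated by tables, with the length as a budget.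

The polynomial-time library `Pool.Agent.T9h49.SC` is due to helper49.
-/

set_option autoImplicit false

namespace Pool.Agent.Results.MP_c2284b_lc.LevelsOfHardLanguages

open N68a2faeb N793a5b8e Pool.Agent.T9h21.UB

theorem result :
    -- (1) cone avoidance at all levels
    (∀ K : DecisionProblem, (K ∈ NP ∨ Computable K) → Hard K →
      ∀ A : ℕ → ℕ → DecisionProblem,
        (Computable fun p : (ℕ × ℕ) × List Bool => A p.1.1 p.1.2 p.2) →
        (∀ m j, A m j ∉ SigmaP (m + 1)) →
      ∃ K' : ℕ → DecisionProblem, (∀ s, Hard (K' s) ∧ ManyOneReducible (K' s) K) ∧
        (∀ s t, s ≠ t → ManyOneReducible K (join (K' s) (K' t))) ∧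
        ∀ s m j, A m j ∉ SigmaRel (m + 1) (K' s)) ∧
    -- (2) the levels are intersections of relativised levels
    (∀ (m : ℕ), ∀ K₀ ∈ NP, Hard K₀ → ∀ L : DecisionProblem, L ∈ SigmaP (m + 1) ↔
      ∀ K : DecisionProblem, Hard K → ManyOneReducible K K₀ → L ∈ SigmaRel (m + 1) K) ∧
    -- (3) different levels and languages which are not high
    (∀ m : ℕ, SigmaP (m + 1) ≠ SigmaP (m + 2) ↔
      ∃ K ∈ NP, Hard K ∧ SigmaRel (m + 1) K ≠ SigmaP (m + 2)) ∧
    -- (4) the same for all levels
    ((∀ m : ℕ, SigmaP (m + 1) ≠ SigmaP (m + 2)) ↔
      ∃ K ∈ NP, Hard K ∧ ∀ m : ℕ, SigmaRel (m + 1) K ≠ SigmaP (m + 2)) ∧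
    -- (5) infinitely many such languages with complete joins
    ((∀ m : ℕ, SigmaP (m + 1) ≠ SigmaP (m + 2)) → ∃ K' : ℕ → DecisionProblem,
      (∀ s, K' s ∈ NP ∧ Hard (K' s) ∧ ∀ m : ℕ, SigmaRel (m + 1) (K' s) ⊂ SigmaP (m + 2)) ∧
      ∀ s t, s ≠ t → IsCompleteFor NP (join (K' s) (K' t))) := by
  refine ⟨fun K hc hK A hA hA' => high1 hc hK ?_ hA', fun m K₀ h₀ hh L => high4 m h₀ hh L, high5,
    high6, high3⟩
  exact hA.comp (Computable.pair (Computable.unpair.comp Computable.fst) Computable.snd)

end Pool.Agent.Results.MP_c2284b_lc.LevelsOfHardLanguages
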