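import Pool.Agent.T9h75.SO.Low

/-!
# A very sparse oracle relative to which `NP ∩ coNP` has a complete language

`DecisionProblem`, `P`, `NP`, `IsPolyTime` and `ManyOneReducible` are the notions of the frozen
statements. `TuringReducible L T` says that `L` is decided in polynomial time with the oracle `T`
(`P` relative to `T`), `NPRel T` is `NP` relative to `T`, `SigmaRel m T` is the level `m` of the
polynomial hierarchy relative to `T` and `SigmaP m` is the level `m` of the polynomial hierarchy.
`HasComplete T` says that `NP ∩ coNP` relative to `T` has a complete language, with respect to
polynomial-time many-one reductions which do not use the oracle.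

Part 1.  For every computable function `g`, however fast it grows, there is an oracle `T` of strings of
the form `1 ^ (s i)`, `i = 0, 1, 2, …`, with `s i ≥ g i`; so at most as many strings of length `≤ n` are
in `T` as there are `i` with `g i ≤ n` (for instance the inverse of Ackermann's function). Relative to
`T` the class `NP ∩ coNP` has a complete language (which is then hard for the unrelativised class
`NP ∩ coNP`, too). The oracle is in the class `Δ₃`, and it is low for this class and for all higher
levels: `Δ₃` and the levels `3, 4, 5, …` of the polynomial hierarchy relative to `T` are the same
classes as without oracle. The question whether `P = NP` has the same answer relative to `T` as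
without oracle. There is no unproved hypothesis.

Part 2.  For oracles in `NP ∩ coNP` (in particular for finite sets) the property `HasComplete` is the
existence of a complete language for `NP ∩ coNP`.

Proof.  `T` is contained in `{1 ^ (2 ^ J)}`; so all of `T` that can be asked in polynomial time is a string
of length `O(log n)`, and `P` relative to `T` is the class of the languages
`{x : V (x, T below a power of |x|)}`, `V` in polynomial time; there are polynomially many possible
values of this string, and `NP ⊆ P` relative to `T` implies `NP = P` by self-reducibility. The position
`J` is owned by one pair of nondeterministic machines with a common clock; the pair owns infinitely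
many positions, polynomially dense. The string `1 ^ (2 ^ J)` is put into `T` if a clock shows that `g` of
the number of the pair is at most `2 ^ J`, no such string has been put into `T` for this pair before,
and the pair fails (both machines accept, or both reject) on an input whose computations do not ask
strings of length `≥ 2 ^ J`. So each pair has at most one string in `T`; the pair can be used by the
complete language on an input as long as its string is not in `T`. Whether the pair fails is a
question to a language in `SigmaP 2`, given the earlier part of `T`. The languages of the level `2`
relative to `T` are the languages `{x : V (x, T below a power of |x|)}`, `V ∈ SigmaP 2`; a reduction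
to such a language first computes this part of `T` with a language in `SigmaP 2`.

The pieces of the proof were written by helper65, helper67, helper69, helper75 and helper95. The
libraries `Pool.Agent.T9h49.SC` and `Pool.Agent.T9h21.UB` are due to helper49 and helper21.
-/

set_option autoImplicit false

namespace Pool.Agent.Results.MP_c2284b_lc.SparseOracle

open N68a2faeb N793a5b8e Pool.Agent.T9h21.UB Pool.Agent.T9h75.SO

theorem result :
    -- Part 1
    (∀ g : ℕ → ℕ, Computable g → ∃ (T : DecisionProblem) (s : ℕ → ℕ),
      -- the oracle is very sparse
      (∀ i, g i ≤ s i) ∧ (∀ z, T z = true → ∃ i, z = List.replicate (s i) true) ∧
      -- it is in the class `Δ₃` and low for this class and for the levels `3, 4, 5, …`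
      ((∃ D ∈ SigmaP 2, TuringReducible T D) ∧
        (∀ A B, B ∈ SigmaRel 2 T → TuringReducible A B → ∃ D ∈ SigmaP 2, TuringReducible A D) ∧
        ∀ m, SigmaRel (m + 3) T = SigmaP (m + 3)) ∧
      -- relative to the oracle the class `NP ∩ coNP` has a complete language
      HasComplete T ∧
      -- the oracle does not change the question whether `P = NP`
      ({L | TuringReducible L T} = NPRel T ↔ P = NP)) ∧
    -- Part 2
    (∀ T ∈ NP ∩ coNP, HasComplete T ↔
      ∃ K ∈ NP ∩ coNP, ∀ L ∈ NP ∩ coNP, ManyOneReducible L K) := by
  exact ⟨main3, fun T hT => low_iff hT⟩

end Pool.Agent.Results.MP_c2284b_lc.SparseOracle
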