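import Pool.Agent.T9h21.UB.Main

/-!
# Upper bounds of `NP ∩ coNP`: splitting, cone avoidance, no minimal ones

`DecisionProblem`, `NP`, `coNP`, `IsPolyTime`, `ManyOneReducible` and `IsCompleteFor` are the
notions of the frozen statements. `Hard K` says that every language in `NP ∩ coNP` is many-one
reducible to `K`; `TuringReducible A B` is polynomial-time Turing reducibility (polynomially many
queries, each computed in polynomial time from the input and the previous answers, and a decision
computed in polynomial time from the input and all answers); `join L M` is the disjoint union.

A language in `NP ∩ coNP` is complete for `NP ∩ coNP` iff it is hard.  The theorem is about the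
hard languages outside `NP ∩ coNP`, for instance in `NP`, and shows that they behave as the upper
bounds of a class without a largest element, with no unproved hypothesis:

1. splitting with cone avoidance below every hard language `K ∉ NP ∩ coNP` that is in `NP` or
   computable: for every computable sequence of languages `A m ∉ NP ∩ coNP` there are hard languages
   `K' 0, K' 1, K' 2, ...` many-one below `K`, pairwise Turing incomparable, such that `K` is
   many-one reducible to the join of any two of them, and neither `K` nor any `A m` is Turing
   reducible to any of them;
2. `NP ∩ coNP` has a complete language iff some hard `K ∈ NP` is minimal, in the sense that it is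
   Turing reducible to all hard languages many-one below `K`;
3. `NP ∩ coNP` consists exactly of the languages that are Turing reducible to every hard language
   in `NP`;
4. if `NP ≠ coNP` then there are pairwise Turing incomparable hard languages in `NP` which are not
   Turing complete for `NP`, while the join of any two of them is many-one complete for `NP`;
5. if some computable sequence of hard languages is coinitial among the hard languages in `NP` then
   `NP ∩ coNP` has a complete language.

Proof. An index `e` consists of two nondeterministic machines with a polynomial clock and a
polynomial-time function `φ_e`; it is good if on every input `x` the first machine accepts iff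
`φ_e x ∈ K` and the second one accepts iff `φ_e x ∉ K`.  Every language of `NP ∩ coNP` is given by a
good index, since it is in `NP ∩ coNP` and reducible to `K`; nothing effective is known about the
set of good indices.  `K' s` consists of padded instances `(e, x)` with value `K (φ_e x)`, where
only the indices `e < i` are active in the stage number `i`, and an index becomes inactive for ever
when a failure is found by a search whose budget is the length of the instance; moreover `K' s`
contains a copy of `K` at the lengths which belong to the stages that do not treat `s`.  So
`K' s ≤ₘ K`, and `K ≤ₘ join (K' s) (K' t)`.  Stage `i` codes a triple `(s, m, r)`; it tries to make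
`A m` different from the language reduced to `K' s` by the Turing reduction number `r`, and it ends
when a difference is found with the budget given by the length.  If a stage did not end, then
`K' s` would be in `NP ∩ coNP`: finitely many indices are active, and after some length all bad ones
have been found, so that a certificate of the first or of the second machine certifies the value; so
`A m` would be in `NP ∩ coNP` (which is closed under Turing reductions), a contradiction.  Hence all
stages end, every good index is active from some length on, and every `K' s` is hard.

The polynomial-time library `Pool.Agent.T9h49.SC` is due to helper49.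
-/

set_option autoImplicit false

namespace Pool.Agent.Results.MP_c2284b_lc.SplittingUpperBounds

open N68a2faeb N793a5b8e Pool.Agent.T9h21.UB

theorem result :
    -- (1) splitting and cone avoidance
    (∀ K : DecisionProblem, (K ∈ NP ∨ Computable K) → Hard K → K ∉ NP ∩ coNP →
      ∀ A : ℕ → DecisionProblem, Computable₂ A → (∀ m, A m ∉ NP ∩ coNP) →
      ∃ K' : ℕ → DecisionProblem,
        (∀ s, Hard (K' s) ∧ ManyOneReducible (K' s) K ∧ ¬ TuringReducible K (K' s)) ∧
        (∀ s t, s ≠ t → ManyOneReducible K (join (K' s) (K' t)) ∧
          ¬ TuringReducible (K' s) (K' t)) ∧
        ∀ s m, ¬ TuringReducible (A m) (K' s)) ∧
    -- (2) a complete language exists iff there is a minimal hard language in `NP`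
    ((∃ L : DecisionProblem, IsCompleteFor (NP ∩ coNP) L) ↔
      ∃ K ∈ NP, Hard K ∧ ∀ K' : DecisionProblem, Hard K' → ManyOneReducible K' K →
        TuringReducible K K') ∧
    -- (3) the class is the intersection of the lower cones of the hard languages in `NP`
    (∀ L : DecisionProblem, L ∈ NP ∩ coNP ↔ ∀ K ∈ NP, Hard K → TuringReducible L K) ∧
    -- (4) hard languages in `NP` which are not complete for `NP`
    (NP ≠ coNP → ∃ K' : ℕ → DecisionProblem,
      (∀ s, K' s ∈ NP ∧ Hard (K' s) ∧ ∃ L ∈ NP, ¬ TuringReducible L (K' s)) ∧
      ∀ s t, s ≠ t → ¬ TuringReducible (K' s) (K' t) ∧
        IsCompleteFor NP (join (K' s) (K' t))) ∧
    -- (5) no computable coinitial sequence, unless a complete language exists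
    (∀ A : ℕ → DecisionProblem, Computable₂ A → (∀ m, Hard (A m)) →
      (∀ K ∈ NP, Hard K → ∃ m, TuringReducible (A m) K) →
      ∃ L : DecisionProblem, IsCompleteFor (NP ∩ coNP) L) :=
  ⟨fun _ hc hK hn _ hA hA' => main1 hc hK hn hA hA', main3, main4, main5,
    fun _ hA hh hc => main6 hA hh hc⟩

end Pool.Agent.Results.MP_c2284b_lc.SplittingUpperBounds
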